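import Mathlib
import Pool.Agent.N990.EJ.Stm

/-!
# EJ/EXI: existence of an EA spin glass measure by Prokhorov's theorem (helper219 for helper990,
along the lines of the proof of helper712 for RT/EXI)
-/

open MeasureTheory ProbabilityTheory Filter Topology
open Pool.Agent.N988.EA
open Pool.Agent.N990.EJ

namespace Pool.Agent.N219.EJ

noncomputable section

variable {β : ℝ} {p : ℕ → Fin 2 × Bool}

/-- couplings and spins -/
abbrev Om (p : ℕ → Fin 2 × Bool) : Type := (EdgeInf 2 p → ℝ) × (VInf p → Bool)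

/-- the weight -/
def wt (β : ℝ) (p : ℕ → Fin 2 × Bool) (n : ℕ) (s : Vert 2 n → Bool) (ω : Om p) : ℝ :=
  gw (fun e => β * cpl p ω.1 n e) (fun t => ω.2 (inc p n (.inl t))) s

/-- the replacement -/
def ph (p : ℕ → Fin 2 × Bool) (n : ℕ) (s : Vert 2 n → Bool) (ω : Om p) : Om p :=
  (ω.1, repl p n ω.2 s)

theorem GJ_eq (n : ℕ) (f : Om p → ℝ) (ω : Om p) :
    GJ β p n f ω = ∑ s, wt β p n s ω * f (ph p n s ω) := rfl

theorem wt_nonneg (h3 : S_GWF) (n : ℕ) (s : Vert 2 n → Bool) (ω : Om p) : 0 ≤ wt β p n s ω :=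
  (h3 n).1 _ _ _

theorem wt_sum (h3 : S_GWF) (n : ℕ) (ω : Om p) : ∑ s, wt β p n s ω = 1 := (h3 n).2.1 _ _

theorem wt_le_one (h3 : S_GWF) (n : ℕ) (s : Vert 2 n → Bool) (ω : Om p) : wt β p n s ω ≤ 1 := by
  rw [← wt_sum (β := β) h3 n ω]
  exact Finset.single_le_sum (f := fun s => wt β p n s ω) (fun s _ => wt_nonneg h3 n s ω)
    (Finset.mem_univ s)

theorem wt_cont (h2 : S_GEO) (h3 : S_GWF) (n : ℕ) (s : Vert 2 n → Bool) :
    Continuous (wt β p n s) := by
  have e : wt β p n s = fun ω : Om p => ∑ τ : Bool → Bool,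
      (if (fun t => ω.2 (inc p n (.inl t))) = τ then (1 : ℝ) else 0) *
        gw (fun e => β * cpl p ω.1 n e) τ s := by
    funext ω
    simp [wt]
  rw [e]
  refine continuous_finset_sum _ fun τ _ => ?_
  refine Continuous.mul ?_ ?_
  · have h1 : Continuous fun ω : Om p => fun t : Bool => ω.2 (inc p n (.inl t)) := by
      refine continuous_pi fun t => ?_
      exact (continuous_apply _).comp continuous_snd
    have h4 : Continuous fun τ' : Bool → Bool => (if τ' = τ then (1 : ℝ) else 0) :=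
      continuous_of_discreteTopology
    exact h4.comp h1
  · have h1 : Continuous fun ω : Om p => fun e : Edge 2 n => β * cpl p ω.1 n e := by
      refine continuous_pi fun e => ?_
      have h5 := ((h2 p).2.2.2.2.2.2.2.2.2.1 n)
      exact continuous_const.mul ((continuous_apply e).comp (h5.comp continuous_fst))
    exact ((h3 n).2.2.1 τ s).comp h1

theorem ph_cont (h2 : S_GEO) (n : ℕ) (s : Vert 2 n → Bool) : Continuous (ph p n s) := by
  have h5 := ((h2 p).2.2.2.2.2.2.2.1 n s)
  exact continuous_fst.prodMk (h5.comp continuous_snd)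

theorem ph_meas (h2 : S_GEO) (n : ℕ) (s : Vert 2 n → Bool) : Measurable (ph p n s) := by
  have h5 := ((h2 p).2.2.2.2.2.2.2.2.1 n s)
  exact measurable_fst.prodMk (h5.comp measurable_snd)

theorem wt_meas (h2 : S_GEO) (h3 : S_GWF) (n : ℕ) (s : Vert 2 n → Bool) :
    Measurable (wt β p n s) := by
  haveI : Countable (VInf p) := (h2 p).1
  haveI : Countable (EdgeInf 2 p) := (h2 p).2.1
  exact (wt_cont h2 h3 n s).measurable

theorem GJ_cont (h2 : S_GEO) (h3 : S_GWF) (n : ℕ) {f : Om p → ℝ} (hf : Continuous f) :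
    Continuous (GJ β p n f) := by
  have e : GJ β p n f = fun ω => ∑ s, wt β p n s ω * f (ph p n s ω) := rfl
  rw [e]
  exact continuous_finset_sum _ fun s _ => (wt_cont h2 h3 n s).mul (hf.comp (ph_cont h2 n s))

theorem GJ_meas (h2 : S_GEO) (h3 : S_GWF) (n : ℕ) {f : Om p → ℝ} (hf : Measurable f) :
    Measurable (GJ β p n f) := by
  have e : GJ β p n f = fun ω => ∑ s, wt β p n s ω * f (ph p n s ω) := rfl
  rw [e]
  exact Finset.measurable_sum _ fun s _ => (wt_meas h2 h3 n s).mul (hf.comp (ph_meas h2 n s))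

theorem GJ_bdd (h3 : S_GWF) (n : ℕ) {f : Om p → ℝ} {C : ℝ} (hf : ∀ ω, |f ω| ≤ C)
    (ω : Om p) : |GJ β p n f ω| ≤ C := by
  rw [GJ_eq]
  calc |∑ s, wt β p n s ω * f (ph p n s ω)| ≤ ∑ s, |wt β p n s ω * f (ph p n s ω)| :=
        Finset.abs_sum_le_sum_abs _ _
    _ ≤ ∑ s, wt β p n s ω * C := by
        refine Finset.sum_le_sum fun s _ => ?_
        rw [abs_mul, abs_of_nonneg (wt_nonneg h3 n s ω)]
        exact mul_le_mul_of_nonneg_left (hf _) (wt_nonneg h3 n s ω)
    _ = C := by rw [← Finset.sum_mul, wt_sum h3, one_mul]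

theorem GJ_cons (h1 : S_CNS) (n k : ℕ) (f : Om p → ℝ) (ω : Om p) :
    GJ β p (n + 1 + k) (GJ β p n f) ω = GJ β p (n + 1 + k) f ω := by
  induction k generalizing ω with
  | zero => exact h1 β p n f ω
  | succ k ih =>
    have e1 := h1 β p (n + 1 + k) (GJ β p n f) ω
    have e2 := h1 β p (n + 1 + k) f ω
    have e3 : GJ β p (n + 1 + k) (GJ β p n f) = GJ β p (n + 1 + k) f := funext ih
    rw [e3] at e1
    exact e1.symm.trans e2

/-- The specification acting on measures. -/
def TJ (β : ℝ) (p : ℕ → Fin 2 × Bool) (n : ℕ) (ρ : Measure (Om p)) : Measure (Om p) :=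
  ∑ s, (ρ.withDensity fun ω => ENNReal.ofReal (wt β p n s ω)).map (ph p n s)

theorem TJ_fst (h2 : S_GEO) (h3 : S_GWF) (n : ℕ) (ρ : Measure (Om p))
    {A : Set (EdgeInf 2 p → ℝ)} (hA : MeasurableSet A) :
    TJ β p n ρ (Prod.fst ⁻¹' A) = ρ (Prod.fst ⁻¹' A) := by
  have hA' : MeasurableSet (Prod.fst ⁻¹' A : Set (Om p)) := measurable_fst hA
  unfold TJ
  rw [Measure.finsetSum_apply]
  have e : ∀ s : Vert 2 n → Bool,
      ((ρ.withDensity fun ω => ENNReal.ofReal (wt β p n s ω)).map (ph p n s))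
        (Prod.fst ⁻¹' A) = ∫⁻ ω in (Prod.fst ⁻¹' A), ENNReal.ofReal (wt β p n s ω) ∂ρ := by
    intro s
    rw [Measure.map_apply (ph_meas h2 n s) hA']
    have : ph p n s ⁻¹' (Prod.fst ⁻¹' A) = Prod.fst ⁻¹' A := rfl
    rw [this, withDensity_apply _ hA']
  rw [Finset.sum_congr rfl fun s _ => e s, ← lintegral_finset_sum]
  · have e2 : ∀ ω : Om p, ∑ s, ENNReal.ofReal (wt β p n s ω) = 1 := by
      intro ω
      rw [← ENNReal.ofReal_sum_of_nonneg fun s _ => wt_nonneg h3 n s ω, wt_sum h3]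
      simp
    simp only [e2]
    simp
  · exact fun s _ => (wt_meas h2 h3 n s).ennreal_ofReal

theorem TJ_prob (h2 : S_GEO) (h3 : S_GWF) (n : ℕ) (ρ : Measure (Om p)) [IsProbabilityMeasure ρ] :
    IsProbabilityMeasure (TJ β p n ρ) := by
  refine ⟨?_⟩
  have := TJ_fst (β := β) h2 h3 n ρ (A := Set.univ) MeasurableSet.univ
  rw [Set.preimage_univ] at this
  rw [this]
  exact measure_univ

theorem TJ_map (h2 : S_GEO) (h3 : S_GWF) (n : ℕ) (ρ : Measure (Om p)) :
    (TJ β p n ρ).map Prod.fst = ρ.map Prod.fst := by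
  ext A hA
  rw [Measure.map_apply measurable_fst hA, Measure.map_apply measurable_fst hA]
  exact TJ_fst h2 h3 n ρ hA

theorem TJ_int (h2 : S_GEO) (h3 : S_GWF) (n : ℕ) (ρ : Measure (Om p)) [IsProbabilityMeasure ρ]
    {f : Om p → ℝ} (hf : Measurable f) (hb : ∃ C, ∀ ω, |f ω| ≤ C) :
    ∫ ω, f ω ∂(TJ β p n ρ) = ∫ ω, GJ β p n f ω ∂ρ := by
  obtain ⟨C, hC⟩ := hb
  have hfin : ∀ s : Vert 2 n → Bool,
      IsFiniteMeasure (ρ.withDensity fun ω => ENNReal.ofReal (wt β p n s ω)) := by
    intro s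
    refine isFiniteMeasure_withDensity ?_
    refine ne_of_lt (lt_of_le_of_lt (lintegral_mono (g := fun _ => 1) fun ω => ?_) ?_)
    · exact ENNReal.ofReal_le_one.2 (wt_le_one h3 n s ω)
    · simp
  unfold TJ
  rw [integral_finset_sum_measure]
  · have e : ∀ s : Vert 2 n → Bool,
        ∫ ω, f ω ∂((ρ.withDensity fun ω => ENNReal.ofReal (wt β p n s ω)).map (ph p n s))
          = ∫ ω, wt β p n s ω * f (ph p n s ω) ∂ρ := by
      intro s
      rw [integral_map (ph_meas h2 n s).aemeasurable hf.aestronglyMeasurable]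
      have h4 : (fun ω => ENNReal.ofReal (wt β p n s ω)) =
          fun ω => ((Real.toNNReal (wt β p n s ω) : NNReal) : ENNReal) := rfl
      rw [h4, integral_withDensity_eq_integral_smul (wt_meas h2 h3 n s).real_toNNReal]
      refine integral_congr_ae (ae_of_all _ fun ω => ?_)
      show (Real.toNNReal (wt β p n s ω)) • f (ph p n s ω) = wt β p n s ω * f (ph p n s ω)
      rw [NNReal.smul_def, Real.coe_toNNReal _ (wt_nonneg h3 n s ω), smul_eq_mul]
    rw [Finset.sum_congr rfl fun s _ => e s, ← integral_finset_sum]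
    · rfl
    · intro s _
      refine Integrable.of_bound
        ((wt_meas h2 h3 n s).mul (hf.comp (ph_meas h2 n s))).aestronglyMeasurable C
        (ae_of_all _ fun ω => ?_)
      rw [Real.norm_eq_abs, abs_mul, abs_of_nonneg (wt_nonneg h3 n s ω)]
      have hC0 : 0 ≤ C := (abs_nonneg _).trans (hC ω)
      calc wt β p n s ω * |f (ph p n s ω)| ≤ 1 * C :=
            mul_le_mul (wt_le_one h3 n s ω) (hC _) (abs_nonneg _) zero_le_one
        _ = C := one_mul C
  · intro s _
    haveI := hfin s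
    haveI := Measure.isFiniteMeasure_map
      (ρ.withDensity fun ω => ENNReal.ofReal (wt β p n s ω)) (ph p n s)
    exact Integrable.of_bound hf.aestronglyMeasurable C (ae_of_all _ fun ω => hC ω)

theorem t_exi (h1 : Pool.Agent.N990.EJ.S_CNS) (h2 : Pool.Agent.N990.EJ.S_GEO)
    (h3 : Pool.Agent.N990.EJ.S_GWF) : Pool.Agent.N990.EJ.S_EXI := by
  intro μ _ β p
  have : Countable (VInf p) := (h2 p).1
  have : Countable (EdgeInf 2 p) := (h2 p).2.1
  let P : Measure (EdgeInf 2 p → ℝ) := Measure.infinitePi (fun _ => μ)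
  have hPp : IsProbabilityMeasure P := by
    show IsProbabilityMeasure (Measure.infinitePi (fun _ : EdgeInf 2 p => μ))
    infer_instance
  let P0 : Measure (Om p) := P.map (fun w => (w, fun _ => false))
  have hm0 : Measurable (fun w : EdgeInf 2 p → ℝ => ((w, fun _ => false) : Om p)) :=
    measurable_id.prodMk measurable_const
  have hP0p : IsProbabilityMeasure P0 := Measure.isProbabilityMeasure_map hm0.aemeasurable
  have hP0 : P0.map Prod.fst = P := by
    show (P.map (fun w => ((w, fun _ => false) : Om p))).map Prod.fst = P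
    rw [Measure.map_map measurable_fst hm0]
    exact Measure.map_id
  let PM : ℕ → ProbabilityMeasure (Om p) := fun N => ⟨TJ β p N P0, TJ_prob h2 h3 N P0⟩
  have hPMfst : ∀ N, (TJ β p N P0).map Prod.fst = P := fun N => (TJ_map h2 h3 N P0).trans hP0
  have htight : IsTightMeasureSet
      {((ν : ProbabilityMeasure (Om p)) : Measure (Om p)) | ν ∈ Set.range PM} := by
    rw [isTightMeasureSet_iff_exists_isCompact_measure_compl_le]
    intro ε hε
    have hT := isTightMeasureSet_singleton (μ := P)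
    rw [isTightMeasureSet_iff_exists_isCompact_measure_compl_le] at hT
    obtain ⟨K, hK, hKε⟩ := hT ε hε
    refine ⟨K ×ˢ Set.univ, hK.prod isCompact_univ, ?_⟩
    rintro _ ⟨ν, ⟨N, rfl⟩, rfl⟩
    have e : ((K ×ˢ Set.univ : Set (Om p)))ᶜ = Prod.fst ⁻¹' Kᶜ := by
      ext ω
      simp
    rw [e]
    show (TJ β p N P0) (Prod.fst ⁻¹' Kᶜ) ≤ ε
    rw [← Measure.map_apply measurable_fst hK.isClosed.measurableSet.compl, hPMfst N]
    exact hKε P (Set.mem_singleton _)
  have hcomp := isCompact_closure_of_isTightMeasureSet htight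
  let F : Ultrafilter (ProbabilityMeasure (Om p)) := (hyperfilter ℕ).map PM
  have hF : (F : Filter _) ≤ 𝓟 (closure (Set.range PM)) := by
    rw [le_principal_iff]
    have hr : Set.range PM ∈ (F : Filter _) := by
      show Set.range PM ∈ (hyperfilter ℕ).map PM
      rw [Ultrafilter.mem_map]
      have : PM ⁻¹' (Set.range PM) = Set.univ := by
        ext N
        simp
      rw [this]
      exact Filter.univ_mem
    exact mem_of_superset hr subset_closure
  obtain ⟨ρ, -, hρ⟩ := hcomp.ultrafilter_le_nhds F hF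
  have hT : Tendsto PM (hyperfilter ℕ : Filter ℕ) (𝓝 ρ) := hρ
  have key := ProbabilityMeasure.tendsto_iff_forall_integral_tendsto.1 hT
  have hdlr : ∀ (n : ℕ) (g : BoundedContinuousFunction (Om p) ℝ),
      ∫ ω, g ω ∂(ρ : Measure (Om p)) = ∫ ω, GJ β p n g ω ∂(ρ : Measure (Om p)) := by
    intro n g
    have hb : ∀ ω, |g ω| ≤ ‖g‖ := g.norm_coe_le_norm
    let g' : BoundedContinuousFunction (Om p) ℝ :=
      BoundedContinuousFunction.ofNormedAddCommGroup (GJ β p n g)
        (GJ_cont h2 h3 n g.continuous) ‖g‖ (fun ω => GJ_bdd h3 n hb ω)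
    refine tendsto_nhds_unique_of_eventuallyEq (key g) (key g') ?_
    refine Nat.hyperfilter_le_atTop (eventually_atTop.2 ⟨n + 1, fun N hN => ?_⟩)
    obtain ⟨k, rfl⟩ := Nat.exists_eq_add_of_le hN
    show ∫ ω, g ω ∂(TJ β p (n + 1 + k) P0) = ∫ ω, GJ β p n g ω ∂(TJ β p (n + 1 + k) P0)
    rw [TJ_int h2 h3 _ P0 g.continuous.measurable ⟨_, hb⟩,
      TJ_int h2 h3 _ P0 (GJ_meas h2 h3 n g.continuous.measurable) ⟨_, GJ_bdd h3 n hb⟩]
    exact integral_congr_ae (ae_of_all _ fun ω => (GJ_cons h1 n k g ω).symm)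
  have hfix : ∀ n, TJ β p n (ρ : Measure (Om p)) = (ρ : Measure (Om p)) := by
    intro n
    have := TJ_prob (β := β) h2 h3 n (ρ : Measure (Om p))
    refine ext_of_forall_integral_eq_of_IsFiniteMeasure fun g => ?_
    rw [TJ_int h2 h3 n _ g.continuous.measurable ⟨_, g.norm_coe_le_norm⟩]
    exact (hdlr n g).symm
  refine ⟨(ρ : Measure (Om p)), ?_, ?_⟩
  · have hq : IsProbabilityMeasure ((ρ : Measure (Om p)).map Prod.fst) :=
      Measure.isProbabilityMeasure_map measurable_fst.aemeasurable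
    have hfin : (ρ : Measure (Om p)).map Prod.fst = P := by
      refine ext_of_forall_integral_eq_of_IsFiniteMeasure fun g => ?_
      rw [integral_map measurable_fst.aemeasurable g.continuous.measurable.aestronglyMeasurable]
      have k1 := key (g.compContinuous ⟨Prod.fst, continuous_fst⟩)
      have k2 : ∀ N, ∫ ω, g (ω.1) ∂(TJ β p N P0) = ∫ w, g w ∂P := by
        intro N
        rw [← hPMfst N, integral_map measurable_fst.aemeasurable
          g.continuous.measurable.aestronglyMeasurable]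
      refine tendsto_nhds_unique k1 ?_
      refine Tendsto.congr (fun N => (k2 N).symm) ?_
      exact tendsto_const_nhds
    exact hfin
  · intro n f hf hb
    have h5 := TJ_int (β := β) h2 h3 n (ρ : Measure (Om p)) hf hb
    rw [hfix n] at h5
    exact h5

end

end Pool.Agent.N219.EJ
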